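import Pool.Agent.Helper31.LQ.Goals

/-!
# Packet LQ-DECB: the cones over the facets cover almost everything
-/

open MeasureTheory Set
open scoped ENNReal Matrix Topology
open Pool.Agent.Helper31.LQ

noncomputable section

namespace Pool.Agent.Helper7.LQ

/-- A permutation which maps the first `k` places onto `S`. -/
theorem exists_perm (N k : ℕ) (S : Finset (Fin N)) (hS : S.card = k) :
    ∃ π : Equiv.Perm (Fin N), ∀ i, π i ∈ S ↔ i.val < k := by
  classical
  have hk : k ≤ N := by rw [← hS]; simpa using S.card_le_univ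
  let e0 : {i : Fin N // i.val < k} ≃ Fin k :=
    ⟨fun i => ⟨i.1.1, i.2⟩, fun j => ⟨⟨j.1, lt_of_lt_of_le j.2 hk⟩, j.2⟩, fun i => rfl,
      fun j => rfl⟩
  have hc : Fintype.card {i : Fin N // i.val < k} = Fintype.card {o : Fin N // o ∈ S} := by
    rw [Fintype.card_congr e0]; simp [hS]
  let e : {i : Fin N // i.val < k} ≃ {o : Fin N // o ∈ S} := Fintype.equivOfCardEq hc
  refine ⟨e.extendSubtype, fun i => ?_⟩
  by_cases hi : i.val < k
  · exact iff_of_true (e.extendSubtype_mem i hi) hi
  · exact iff_of_false (e.extendSubtype_not_mem i hi) hi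

/-- Supporting functional of the polytope with the vertices `y`, in the direction of `z`. -/
theorem support {N d : ℕ} (y : Fin (N + 1) → Fin d → ℝ) (h0 : ∑ o, y o = 0)
    (hs : ∀ z : Fin d → ℝ, ∃ t : Fin (N + 1) → ℝ, ∑ o, t o • y o = z) (z : Fin d → ℝ)
    (hz : z ≠ 0) :
    ∃ (ν : Fin d → ℝ) (w : Fin (N + 1) → ℝ), (∀ o, 0 ≤ w o) ∧ ∑ o, w o • y o = z ∧
      (∀ o, ∑ c, ν c * y o c ≤ 1) ∧ ∀ o, 0 < w o → ∑ c, ν c * y o c = 1 := by
  classical
  let Φ : (Fin (N + 1) → ℝ) →ₗ[ℝ] (Fin d → ℝ) := Fintype.linearCombination ℝ y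
  have hΦ : ∀ t, Φ t = ∑ o, t o • y o := fun t => Fintype.linearCombination_apply ℝ y t
  have hΦc : Continuous Φ := Φ.continuous_of_finiteDimensional
  have hΦs : Function.Surjective Φ := fun z => by
    obtain ⟨t, ht⟩ := hs z
    exact ⟨t, by rw [hΦ, ht]⟩
  let C : Set (Fin d → ℝ) := Φ '' stdSimplex ℝ (Fin (N + 1))
  have hconv : Convex ℝ C := (convex_stdSimplex ℝ _).linear_image Φ
  have hcomp : IsCompact C := (isCompact_stdSimplex ℝ (Fin (N + 1))).image hΦc
  have hN : (0 : ℝ) < (N : ℝ) + 1 := by positivity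
  have hnhds : C ∈ 𝓝 (0 : Fin d → ℝ) := by
    let U : Set (Fin (N + 1) → ℝ) :=
      ⋂ o : Fin (N + 1), {t | 0 < t o + (1 - ∑ p, t p) / ((N : ℝ) + 1)}
    have hU : IsOpen U := isOpen_iInter_of_finite fun o =>
      isOpen_lt continuous_const (by fun_prop)
    have h0U : (0 : Fin (N + 1) → ℝ) ∈ U := by
      refine mem_iInter.2 fun o => ?_
      simp only [mem_ofPred_eq, Pi.zero_apply, Finset.sum_const_zero, sub_zero, zero_add]
      positivity
    have hO : IsOpen (Φ '' U) := Φ.isOpenMap_of_finiteDimensional hΦs _ hU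
    refine Filter.mem_of_superset (hO.mem_nhds ⟨0, h0U, map_zero Φ⟩) ?_
    rintro _ ⟨t, ht, rfl⟩
    refine ⟨fun o => t o + (1 - ∑ p, t p) / ((N : ℝ) + 1), ⟨fun o => ?_, ?_⟩, ?_⟩
    · exact (mem_iInter.1 ht o).le
    · rw [Finset.sum_add_distrib, Finset.sum_const, Finset.card_univ, Fintype.card_fin,
        nsmul_eq_mul]
      push_cast
      field_simp
      ring
    · rw [hΦ, hΦ]
      simp only [add_smul, Finset.sum_add_distrib, ← Finset.smul_sum, h0, smul_zero, add_zero]
  have h0i : (0 : Fin d → ℝ) ∈ interior C := mem_interior_iff_mem_nhds.2 hnhds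
  have hr : 0 < gauge C z :=
    (gauge_pos (absorbent_nhds_zero hnhds) (hcomp.isVonNBounded ℝ)).2 hz
  set r : ℝ := gauge C z with hrdef
  let x : Fin d → ℝ := r⁻¹ • z
  have hgx : gauge C x = 1 := by
    show gauge C (r⁻¹ • z) = 1
    rw [gauge_smul_of_nonneg (inv_nonneg.2 hr.le), ← hrdef, smul_eq_mul, inv_mul_cancel₀ hr.ne']
  have hxC : x ∈ C := by
    have := (gauge_le_one_iff_mem_closure hconv hnhds).1 hgx.le
    rwa [hcomp.isClosed.closure_eq] at this
  have hxi : x ∉ interior C := fun h => by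
    have := (gauge_lt_one_iff_mem_interior hconv hnhds).2 h
    rw [hgx] at this
    exact lt_irrefl _ this
  obtain ⟨f, hf⟩ := geometric_hahn_banach_open_point hconv.interior isOpen_interior hxi
  have hfx : 0 < f x := by simpa using hf 0 h0i
  have hfC : ∀ a ∈ C, f a ≤ f x := by
    intro a ha
    have h1 : a ∈ closure (interior C) := by
      rw [hconv.closure_interior_eq_closure_of_nonempty_interior ⟨0, h0i⟩]
      exact subset_closure ha
    have h2 : closure (interior C) ⊆ {a | f a ≤ f x} :=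
      closure_minimal (fun b hb => (hf b hb).le) (isClosed_le f.continuous continuous_const)
    exact h2 h1
  have hyC : ∀ o, y o ∈ C := fun o =>
    ⟨Pi.single o 1, single_mem_stdSimplex ℝ o, by rw [hΦ]; simp [Pi.single_apply]⟩
  let ν : Fin d → ℝ := fun c => f (Pi.single c 1) / f x
  have hν : ∀ v : Fin d → ℝ, ∑ c, ν c * v c = f v / f x := by
    intro v
    have hv : v = ∑ c, v c • (Pi.single c 1 : Fin d → ℝ) := by
      ext e
      simp [Finset.sum_apply, Pi.single_apply]
    conv_rhs => rw [hv, map_sum]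
    rw [Finset.sum_div]
    refine Finset.sum_congr rfl fun c _ => ?_
    rw [map_smul, smul_eq_mul]
    simp only [ν]
    ring
  obtain ⟨w, ⟨hw0, hw1⟩, hwx⟩ := hxC
  rw [hΦ] at hwx
  have hle : ∀ o, ∑ c, ν c * y o c ≤ 1 := fun o => by
    rw [hν, div_le_one hfx]
    exact hfC _ (hyC o)
  have hsum : ∑ o, w o * (1 - ∑ c, ν c * y o c) = 0 := by
    have h1 : ∑ o, w o * (∑ c, ν c * y o c) = 1 := by
      have h2 : ∑ o, w o * (∑ c, ν c * y o c) = ∑ o, f (w o • y o) / f x := by
        refine Finset.sum_congr rfl fun o _ => ?_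
        have e : f (w o • y o) = w o * f (y o) := by rw [map_smul, smul_eq_mul]
        rw [hν, e]
        ring
      have h3 : ∑ o, f (w o • y o) = f x := by rw [← map_sum, hwx]
      rw [h2, ← Finset.sum_div, h3, div_self hfx.ne']
    simp only [mul_sub, mul_one, Finset.sum_sub_distrib, hw1, h1, sub_self]
  have hz0 := (Finset.sum_eq_zero_iff_of_nonneg fun o _ =>
    mul_nonneg (hw0 o) (sub_nonneg.2 (hle o))).1 hsum
  refine ⟨ν, fun o => r * w o, fun o => mul_nonneg hr.le (hw0 o), ?_, hle, fun o ho => ?_⟩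
  · simp only [mul_smul, ← Finset.smul_sum, hwx]
    show r • r⁻¹ • z = z
    rw [smul_smul, mul_inv_cancel₀ hr.ne', one_smul]
  · have hwo : 0 < w o := (mul_pos_iff_of_pos_left hr).1 ho
    have := hz0 o (Finset.mem_univ o)
    rcases mul_eq_zero.1 this with h | h
    · exact absurd h hwo.ne'
    · linarith

theorem lin_pr {n d : ℕ} (Y : Fin n → Fin d → ℝ) (t : Fin (n + 1) → ℝ) :
    lin Y (pr t) = ∑ o, t o • yv Y o := by
  classical
  ext c
  have h : ∀ p : Fin (n + 1), ∑ o, t o * (Pi.single o 1 : Fin (n + 1) → ℝ) p = t p := by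
    intro p
    simp [Pi.single_apply]
  simp only [lin, pr, yv, ver, Finset.sum_apply, Pi.smul_apply, smul_eq_mul, Finset.mul_sum]
  rw [Finset.sum_comm]
  refine Finset.sum_congr rfl fun l _ => ?_
  rw [← h l.castSucc, ← h (Fin.last n), ← Finset.sum_sub_distrib, Finset.sum_mul]
  refine Finset.sum_congr rfl fun o _ => ?_
  ring

theorem sum_yv {n d : ℕ} (Y : Fin n → Fin d → ℝ) : ∑ o, yv Y o = 0 := by
  have h := lin_pr Y (fun _ => 1)
  simp only [one_smul] at h
  rw [← h]
  ext c
  simp [lin, pr]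

theorem mat_apply {n d : ℕ} (Y : Fin n → Fin d → ℝ) (π : Equiv.Perm (Fin (n + 1))) (a : Fin d)
    (ha : a.val < n + 1) : mat Y π a = yv Y (π ⟨a.val, ha⟩) := by
  classical
  show lin Y (pr (emb d π (Pi.single a 1))) = _
  have h : emb d π (Pi.single a 1) = Pi.single (π ⟨a.val, ha⟩) 1 := by
    funext o
    simp only [emb]
    by_cases ho : o = π ⟨a.val, ha⟩
    · subst ho
      simp
    · rw [Pi.single_eq_of_ne ho]
      split_ifs with h
      · rw [Pi.single_eq_of_ne]
        intro h'
        apply ho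
        rw [← π.symm_apply_eq]
        apply Fin.ext
        have := congrArg Fin.val h'
        simpa using this
      · rfl
  rw [h]
  rfl

theorem nu_eq {n d : ℕ} (hd : d ≤ n) (Y : Fin n → Fin d → ℝ) (π : Equiv.Perm (Fin (n + 1)))
    (hπ : (mat Y π).det ≠ 0) (ν : Fin d → ℝ)
    (h : ∀ i : Fin (n + 1), i.val < d → ∑ c, ν c * yv Y (π i) c = 1) : nu Y π = ν := by
  have h1 : mat Y π *ᵥ ν = fun _ => 1 := by
    funext a
    have ha : a.val < n + 1 := by omega
    rw [← h ⟨a.val, ha⟩ a.2, ← mat_apply Y π a ha]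
    simp only [Matrix.mulVec, dotProduct]
    exact Finset.sum_congr rfl fun c _ => mul_comm _ _
  rw [nu, ← h1, Matrix.mulVec_mulVec, Matrix.nonsing_inv_mul _ (isUnit_iff_ne_zero.2 hπ),
    Matrix.one_mulVec]

theorem gDECB : DECB := by
  classical
  intro n d hd hdn Y hY
  have hae : ∀ᵐ z : Fin d → ℝ, ∀ S : Finset (Fin (n + 1)), S.card < d →
      z ∉ (Submodule.span ℝ ((S.image (yv Y) : Finset (Fin d → ℝ)) : Set (Fin d → ℝ))) := by
    rw [ae_all_iff]
    intro S
    by_cases hS : S.card < d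
    · have hne : Submodule.span ℝ ((S.image (yv Y) : Finset (Fin d → ℝ)) : Set (Fin d → ℝ)) ≠ ⊤ := by
        intro htop
        have h1 := finrank_span_finset_le_card (R := ℝ) (S.image (yv Y))
        rw [Set.finrank, htop, finrank_top, Module.finrank_fin_fun] at h1
        exact absurd (h1.trans Finset.card_image_le) (by omega)
      have h0 := Measure.addHaar_submodule (volume : Measure (Fin d → ℝ)) _ hne
      have h1 := measure_eq_zero_iff_ae_notMem.1 h0
      filter_upwards [h1] with z hz _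
      exact hz
    · exact Filter.Eventually.of_forall fun z h => absurd h hS
  filter_upwards [hae] with z hz
  have hz0 : z ≠ 0 := by
    intro h
    refine hz ∅ (by rw [Finset.card_empty]; omega) ?_
    rw [h]
    exact Submodule.zero_mem _
  have hsurj : ∀ z : Fin d → ℝ, ∃ t : Fin (n + 1) → ℝ, ∑ o, t o • yv Y o = z := by
    intro z
    let π : Equiv.Perm (Fin (n + 1)) := 1
    have hπ := (hY π).1
    let s : Fin d → ℝ := z ᵥ* (mat Y π)⁻¹
    have hs : s ᵥ* mat Y π = z := by
      simp only [s]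
      rw [Matrix.vecMul_vecMul, Matrix.nonsing_inv_mul _ (isUnit_iff_ne_zero.2 hπ),
        Matrix.vecMul_one]
    refine ⟨∑ a, s a • Pi.single (π ⟨a.val, by omega⟩) 1, ?_⟩
    rw [← lin_pr]
    have h2 : ∀ t : Fin (n + 1) → ℝ, lin Y (pr t) = (Fintype.linearCombination ℝ (yv Y)) t := by
      intro t
      rw [lin_pr, Fintype.linearCombination_apply]
    rw [h2, map_sum, ← hs]
    ext c
    simp only [Matrix.vecMul, dotProduct, Finset.sum_apply]
    refine Finset.sum_congr rfl fun a _ => ?_
    rw [map_smul, ← h2, Pi.smul_apply, smul_eq_mul, mat_apply Y π a (by omega)]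
    rfl
  obtain ⟨ν, w, hw0, hwz, hle, heq⟩ := support (yv Y) (sum_yv Y) hsurj z hz0
  set H : Finset (Fin (n + 1)) := Finset.univ.filter fun o => ∑ c, ν c * yv Y o c = 1 with hH
  set T : Finset (Fin (n + 1)) := Finset.univ.filter fun o => 0 < w o with hT
  have hTH : T ⊆ H := by
    intro o ho
    simp only [hT, Finset.mem_filter, Finset.mem_univ, true_and] at ho
    simp only [hH, Finset.mem_filter, Finset.mem_univ, true_and]
    exact heq o ho
  have hTd : d ≤ T.card := by
    by_contra hlt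
    refine hz T (by omega) ?_
    rw [← hwz]
    refine Submodule.sum_mem _ fun o _ => ?_
    by_cases ho : 0 < w o
    · refine Submodule.smul_mem _ _ (Submodule.subset_span ?_)
      rw [Finset.coe_image]
      exact ⟨o, by simpa [hT] using ho, rfl⟩
    · rw [le_antisymm (not_lt.1 ho) (hw0 o), zero_smul]
      exact Submodule.zero_mem _
  have hHd : H.card ≤ d := by
    by_contra hlt
    obtain ⟨S, hSH, hSc⟩ := Finset.exists_subset_card_eq (show d + 1 ≤ H.card by omega)
    obtain ⟨π, hπ⟩ := exists_perm (n + 1) (d + 1) S hSc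
    have hmem : ∀ i : Fin (n + 1), i.val < d + 1 → ∑ c, ν c * yv Y (π i) c = 1 := by
      intro i hi
      have := hSH ((hπ i).2 hi)
      simpa [hH] using this
    have hνπ := nu_eq hdn Y π (hY π).1 ν fun i hi => hmem i (by omega)
    refine (hY π).2 (π ⟨d, by omega⟩) (by simp) ?_
    rw [kp, hνπ, hmem ⟨d, by omega⟩ (by simp)]
    simp
  have hTeq : T = H := Finset.eq_of_subset_of_card_le hTH (by omega)
  have hTc : T.card = d := le_antisymm (hTeq ▸ hHd) hTd
  obtain ⟨π, hπ⟩ := exists_perm (n + 1) d T hTc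
  have hνπ := nu_eq hdn Y π (hY π).1 ν fun i hi => by
    have := hTH ((hπ i).2 hi)
    simpa [hH] using this
  refine ⟨π, ⟨(hY π).1, fun o ho => ?_⟩, ?_⟩
  · rw [kp, hνπ]
    have hoT : o ∉ H := by
      rw [← hTeq]
      intro hoT
      have := (hπ (π.symm o)).1 (by simpa using hoT)
      omega
    have hne : ∑ c, ν c * yv Y o c ≠ 1 := by simpa [hH] using hoT
    have hlt : ∑ c, ν c * yv Y o c < 1 := lt_of_le_of_ne (hle o) hne
    have : (0 : ℝ) < (n : ℝ) + 1 := by positivity
    exact div_pos (by linarith) this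
  · refine ⟨fun a => w (π ⟨a.val, by omega⟩), fun a => ?_, ?_⟩
    · have := (hπ ⟨a.val, by omega⟩).2 a.2
      simpa [hT] using this
    · have hemb : emb d π (fun a => w (π ⟨a.val, by omega⟩)) = w := by
        funext o
        simp only [emb]
        split_ifs with h
        · congr 1
          exact π.apply_symm_apply o
        · have hoT : o ∉ T := fun hoT => h ((hπ (π.symm o)).1 (by simpa using hoT))
          have : ¬ 0 < w o := by simpa [hT] using hoT
          exact (le_antisymm (not_lt.1 this) (hw0 o)).symm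
      show lin Y (pr (emb d π fun a => w (π ⟨a.val, by omega⟩))) = z
      rw [hemb, lin_pr, hwz]

end Pool.Agent.Helper7.LQ
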